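import Mathlib
set_option autoImplicit false
namespace Pool.Agent.H.MP_d4ad8c_gt
open Set Filter Topology MeasureTheory

structure Good {P : Type} (𝒜 : Subalgebra ℝ (P → ℝ)) : Prop where
  idem : ∀ g : P → ℝ, g * g = g → g ∈ 𝒜
  sqrt : ∀ g ∈ 𝒜, (fun p => √(g p)) ∈ 𝒜
  inv : ∀ g ∈ 𝒜, (fun p => (g p)⁻¹) ∈ 𝒜

lemma cst {P : Type} (𝒜 : Subalgebra ℝ (P → ℝ)) (c : ℝ) : (fun _ => c) ∈ 𝒜 :=
  𝒜.algebraMap_mem c

lemma Good.ite {P : Type} {𝒜 : Subalgebra ℝ (P → ℝ)} (h : Good 𝒜) (c : P → Prop)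
    [DecidablePred c] {f g : P → ℝ} (hf : f ∈ 𝒜) (hg : g ∈ 𝒜) :
    (fun p => if c p then f p else g p) ∈ 𝒜 := by
  have h1 : (fun p => if c p then (1 : ℝ) else 0) ∈ 𝒜 :=
    h.idem _ (by ext p; by_cases hp : c p <;> simp [hp])
  have := 𝒜.add_mem (𝒜.mul_mem h1 (𝒜.sub_mem hf hg)) hg
  convert this using 1
  ext p; by_cases hp : c p <;> simp [hp]

@[reducible] noncomputable def algE (σ : Type) : Algebra (MvPolynomial σ ℝ) ((σ → ℝ) → ℝ) :=
  (RingHom.pi fun p : σ → ℝ => MvPolynomial.eval p).toAlgebra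

attribute [local instance] algE

noncomputable def Alg (σ : Type) : Subalgebra ℝ ((σ → ℝ) → ℝ) where
  carrier := {g | IsAlgebraic (MvPolynomial σ ℝ) g}
  mul_mem' := fun ha hb => IsAlgebraic.mul ha hb
  add_mem' := fun ha hb => IsAlgebraic.add ha hb
  algebraMap_mem' := fun r => by
    have := isAlgebraic_algebraMap (R := MvPolynomial σ ℝ) (A := (σ → ℝ) → ℝ) (MvPolynomial.C r)
    have e : algebraMap ℝ ((σ → ℝ) → ℝ) r =
        algebraMap (MvPolynomial σ ℝ) ((σ → ℝ) → ℝ) (MvPolynomial.C r) := by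
      ext p
      exact (MvPolynomial.eval_C r).symm
    show IsAlgebraic _ _
    rw [e]; exact this

lemma alg_poly {σ : Type} (r : MvPolynomial σ ℝ) : (fun p => MvPolynomial.eval p r) ∈ Alg σ :=
  isAlgebraic_algebraMap (R := MvPolynomial σ ℝ) (A := (σ → ℝ) → ℝ) r

lemma alg_idem {σ : Type} (g : (σ → ℝ) → ℝ) (hg : g * g = g) : g ∈ Alg σ := by
  refine ⟨Polynomial.X * (Polynomial.X - Polynomial.C 1),
    mul_ne_zero Polynomial.X_ne_zero (Polynomial.X_sub_C_ne_zero 1), ?_⟩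
  simp [mul_sub, hg]

lemma alg_good (σ : Type) : Good (Alg σ) := by
  classical
  refine ⟨alg_idem, fun g hg => ?_, fun g hg => ?_⟩
  · refine IsAlgebraic.of_pow (n := 2) two_pos ?_
    have h1 : (fun p => if 0 ≤ g p then (1 : ℝ) else 0) ∈ Alg σ :=
      alg_idem _ (by ext p; by_cases hp : 0 ≤ g p <;> simp [hp])
    have : IsAlgebraic (MvPolynomial σ ℝ) _ := (Alg σ).mul_mem h1 hg
    convert this using 1
    ext p
    by_cases hp : 0 ≤ g p
    · simp [hp]
    · simp [hp, Real.sqrt_eq_zero_of_nonpos (not_le.1 hp).le]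
  · have h1 : (fun p => if g p = 0 then (1 : ℝ) else 0) ∈ Alg σ :=
      alg_idem _ (by ext p; by_cases hp : g p = 0 <;> simp [hp])
    have h2 : IsAlgebraic (MvPolynomial σ ℝ) _ := (Alg σ).add_mem hg h1
    let I : Invertible (g + fun p => if g p = 0 then (1 : ℝ) else 0) :=
      ⟨fun p => if g p = 0 then 1 else (g p)⁻¹,
        by ext p; by_cases hp : g p = 0 <;> simp [hp],
        by ext p; by_cases hp : g p = 0 <;> simp [hp]⟩
    have h3 : (fun p => if g p = 0 then 1 else (g p)⁻¹) ∈ Alg σ := h2.invOf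
    convert (Alg σ).sub_mem h3 h1 using 1
    ext p; by_cases hp : g p = 0 <;> simp [hp]

lemma alg_of_mul {σ : Type} {r : MvPolynomial σ ℝ} (hr : r ≠ 0) {g : (σ → ℝ) → ℝ}
    (h : (fun p => MvPolynomial.eval p r * g p) ∈ Alg σ) : g ∈ Alg σ :=
  IsAlgebraic.of_smul (mem_nonZeroDivisors_of_ne_zero hr) h

lemma alg_out {σ : Type} {g : (σ → ℝ) → ℝ} (h : g ∈ Alg σ) :
    ∃ F : MvPolynomial (Option σ) ℝ, F ≠ 0 ∧
      ∀ p, MvPolynomial.eval (fun x => Option.elim x (g p) p) F = 0 := by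
  obtain ⟨F, h1, h2⟩ := h
  refine ⟨(MvPolynomial.optionEquivLeft ℝ σ).symm F, by simpa using h1, fun p => ?_⟩
  rw [MvPolynomial.optionEquivLeft_elim_eval, AlgEquiv.apply_symm_apply, Polynomial.eval_map]
  have := congrArg (Pi.evalRingHom (fun _ : σ → ℝ => ℝ) p) h2
  rw [Polynomial.aeval_def, Polynomial.hom_eval₂] at this
  exact this

inductive P2 : (ℝ → ℝ → ℝ) → Prop
  | mono (c : ℝ) (a b : ℕ) : P2 fun r s => c * r ^ a * s ^ b
  | add {f g : ℝ → ℝ → ℝ} : P2 f → P2 g → P2 fun r s => f r s + g r s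

lemma P2.subst {Q : Type} (S : Subalgebra ℝ (Q → ℝ)) {f : ℝ → ℝ → ℝ} (hf : P2 f) {r s : Q → ℝ}
    (hr : r ∈ S) (hs : s ∈ S) : (fun q => f (r q) (s q)) ∈ S := by
  induction hf with
  | mono c a b => exact S.mul_mem (S.mul_mem (cst S c) (S.pow_mem hr a)) (S.pow_mem hs b)
  | add _ _ h1 h2 => exact S.add_mem h1 h2

lemma P2.mul {f g : ℝ → ℝ → ℝ} (hf : P2 f) (hg : P2 g) : P2 fun r s => f r s * g r s := by
  induction hf with
  | mono c a b =>
    induction hg with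
    | mono c' a' b' =>
      convert P2.mono (c * c') (a + a') (b + b') using 3; ring
    | add _ _ h1 h2 => convert h1.add h2 using 3; ring
  | add _ _ h1 h2 => convert h1.add h2 using 3; ring

def S2 : Subalgebra ℝ (ℝ × ℝ → ℝ) where
  carrier := {f | P2 fun r s => f (r, s)}
  mul_mem' := fun ha hb => P2.mul ha hb
  add_mem' := fun ha hb => P2.add ha hb
  algebraMap_mem' := fun c => by
    show P2 fun _ _ => c
    simpa using P2.mono c 0 0

lemma s2_fst : (fun q : ℝ × ℝ => q.1) ∈ S2 := by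
  show P2 fun r _ => r
  simpa using P2.mono 1 1 0

lemma s2_snd : (fun q : ℝ × ℝ => q.2) ∈ S2 := by
  show P2 fun _ s => s
  simpa using P2.mono 1 0 1

lemma P2.cont {f : ℝ → ℝ → ℝ} (hf : P2 f) : Continuous fun q : ℝ × ℝ => f q.1 q.2 := by
  induction hf with
  | mono c a b => fun_prop
  | add _ _ h1 h2 => exact h1.add h2

lemma P2.deriv {f : ℝ → ℝ → ℝ} (hf : P2 f) :
    ∃ f', P2 f' ∧ ∀ r s, HasDerivAt (fun r => f r s) (f' r s) r := by
  induction hf with
  | mono c a b =>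
    refine ⟨_, P2.mono (c * a) (a - 1) b, fun r s => ?_⟩
    refine (((hasDerivAt_pow a r).const_mul c).mul_const (s ^ b)).congr_deriv ?_
    ring
  | add _ _ h1 h2 =>
    obtain ⟨f', a1, a2⟩ := h1
    obtain ⟨g', b1, b2⟩ := h2
    exact ⟨_, a1.add b1, fun r s => (a2 r s).add (b2 r s)⟩

lemma P2.prim {f : ℝ → ℝ → ℝ} (hf : P2 f) :
    ∃ F, P2 F ∧ ∀ r a b, ∫ u in a..b, f r u = F r b - F r a := by
  induction hf with
  | mono c a b =>
    refine ⟨_, P2.mono (c / (b + 1)) a (b + 1), fun r x y => ?_⟩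
    rw [intervalIntegral.integral_const_mul, integral_pow]
    ring
  | @add f g hf hg h1 h2 =>
    obtain ⟨F, a1, a2⟩ := h1
    obtain ⟨G, b1, b2⟩ := h2
    refine ⟨_, a1.add b1, fun r x y => ?_⟩
    have c1 : Continuous fun u => f r u := hf.cont.comp (Continuous.prodMk_right r)
    have c2 : Continuous fun u => g r u := hg.cont.comp (Continuous.prodMk_right r)
    show ∫ u in x..y, (f r u + g r u) = _
    rw [intervalIntegral.integral_add (c1.intervalIntegrable _ _) (c2.intervalIntegrable _ _),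
      a2, b2]
    ring

end Pool.Agent.H.MP_d4ad8c_gt
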