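import Mathlib
import Pool.Agent.H.MP_d4ad8c_gt.A
set_option autoImplicit false
namespace Pool.Agent.H.MP_d4ad8c_gt
open Set Filter Topology MeasureTheory

def nq {n : ℕ} (z : Fin n → ℝ) : ℝ := ∑ i, z i ^ 2

def B (n : ℕ) (s : ℝ) : Set (Fin n → ℝ) := {z | nq z ≤ s}

lemma nq_cont {n : ℕ} : Continuous (nq (n := n)) := by unfold nq; fun_prop

lemma nq_nonneg {n : ℕ} (z : Fin n → ℝ) : 0 ≤ nq z := Finset.sum_nonneg fun _ _ => sq_nonneg _

lemma nq_cons {n : ℕ} (u : ℝ) (y : Fin n → ℝ) :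
    nq (Fin.cons u y : Fin (n + 1) → ℝ) = u ^ 2 + nq y := by
  simp [nq, Fin.sum_univ_succ]

lemma sq_le_nq {n : ℕ} (z : Fin n → ℝ) (i : Fin n) : z i ^ 2 ≤ nq z :=
  Finset.single_le_sum (f := fun i => z i ^ 2) (fun _ _ => sq_nonneg _) (Finset.mem_univ i)

lemma B_closed (n : ℕ) (s : ℝ) : IsClosed (B n s) := isClosed_le nq_cont continuous_const

lemma B_compact (n : ℕ) (s : ℝ) : IsCompact (B n s) := by
  refine (isCompact_closedBall (0 : Fin n → ℝ) (√s)).of_isClosed_subset (B_closed n s) ?_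
  intro z hz
  rw [mem_closedBall_zero_iff, pi_norm_le_iff_of_nonneg (Real.sqrt_nonneg _)]
  exact fun i => Real.abs_le_sqrt ((sq_le_nq z i).trans hz)

lemma intg {n : ℕ} (s : ℝ) {c : Set (Fin n → ℝ)} (hc : MeasurableSet c) {G : (Fin n → ℝ) → ℝ}
    (hG : Continuous G) : Integrable ((B n s ∩ c).indicator G) :=
  (integrable_indicator_iff ((B_closed n s).measurableSet.inter hc)).2
    ((hG.continuousOn.integrableOn_compact (B_compact n s)).mono_set inter_subset_left)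

lemma fub {n : ℕ} {f : (Fin (n + 1) → ℝ) → ℝ} (hf : Integrable f) :
    (∫ z, f z = ∫ u : ℝ, ∫ y : Fin n → ℝ, f (Fin.cons u y)) ∧
    (∫ z, f z = ∫ y : Fin n → ℝ, ∫ u : ℝ, f (Fin.cons u y)) ∧
    Integrable fun y : Fin n → ℝ => ∫ u : ℝ, f (Fin.cons u y) := by
  have hm := (volume_preserving_piFinSuccAbove (fun _ : Fin (n + 1) => ℝ) 0).symm _
  have h1 := hm.integral_comp' f
  have h2 := hm.integrable_comp_of_integrable hf
  have e : ∀ q : ℝ × (Fin n → ℝ), (MeasurableEquiv.piFinSuccAbove (fun _ : Fin (n + 1) => ℝ) 0).symm q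
      = Fin.cons q.1 q.2 := by
    intro q
    simp [MeasurableEquiv.piFinSuccAbove_symm_apply, Fin.insertNthEquiv, Fin.insertNth_zero']
  have h3 : Integrable (fun q : ℝ × (Fin n → ℝ) => f (Fin.cons q.1 q.2)) (volume.prod volume) := by
    refine (integrable_congr (Eventually.of_forall fun q => ?_)).1 h2
    simp only [Function.comp, e]
  simp only [e] at h1
  rw [← h1]
  exact ⟨integral_prod _ h3, integral_prod_symm _ h3, h3.integral_prod_right⟩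

def mono {n : ℕ} (β : Fin n → ℕ) (z : Fin n → ℝ) : ℝ := ∏ i, z i ^ β i

lemma mono_cont {n : ℕ} (β : Fin n → ℕ) : Continuous (mono β) := by unfold mono; fun_prop

lemma mono_smul {n : ℕ} (β : Fin n → ℕ) (c : ℝ) (z : Fin n → ℝ) :
    mono β (c • z) = c ^ (∑ i, β i) * mono β z := by
  simp [mono, mul_pow, Finset.prod_mul_distrib, Finset.prod_pow_eq_pow_sum]

lemma nq_smul {n : ℕ} (c : ℝ) (z : Fin n → ℝ) : nq (c • z) = c ^ 2 * nq z := by
  simp [nq, mul_pow, Finset.mul_sum]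

lemma scale {n : ℕ} (β : Fin n → ℕ) (c : ℝ) (hc : c ≠ 0) :
    ∫ y, (B n (c ^ 2)).indicator (mono β) y =
      |c ^ n| * c ^ (∑ i, β i) * ∫ y, (B n 1).indicator (mono β) y := by
  have h1 := Measure.integral_comp_smul volume ((B n (c ^ 2)).indicator (mono β)) c
  have h2 : ∀ y, (B n (c ^ 2)).indicator (mono β) (c • y) =
      c ^ (∑ i, β i) * (B n 1).indicator (mono β) y := by
    intro y
    have : c • y ∈ B n (c ^ 2) ↔ y ∈ B n 1 := by
      show nq _ ≤ _ ↔ nq _ ≤ _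
      rw [nq_smul]
      exact mul_le_iff_le_one_right (by positivity)
    by_cases hy : y ∈ B n 1
    · rw [indicator_of_mem hy, indicator_of_mem (this.2 hy), mono_smul]
    · rw [indicator_of_notMem hy, indicator_of_notMem (fun h => hy (this.1 h)), mul_zero]
  simp only [h2, integral_const_mul, Module.finrank_fin_fun, smul_eq_mul, abs_inv] at h1
  have h3 : |c ^ n| ≠ 0 := by positivity
  rw [mul_assoc, h1]; field_simp

lemma Jlem (j : ℕ) (β : Fin (2 * j) → ℕ) : ∃ (c : ℝ) (N : ℕ), ∀ s > 0,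
    ∫ y, (B (2 * j) s).indicator (mono β) y = c * s ^ N := by
  rcases Nat.even_or_odd' (∑ i, β i) with ⟨a, ha | ha⟩
  · refine ⟨∫ y, (B (2 * j) 1).indicator (mono β) y, j + a, fun s hs => ?_⟩
    have := scale β (√s) (Real.sqrt_pos.2 hs).ne'
    rw [Real.sq_sqrt hs.le, ha, pow_mul, pow_mul, Real.sq_sqrt hs.le,
      abs_of_pos (by positivity)] at this
    rw [this]; ring
  · refine ⟨0, 0, fun s hs => ?_⟩
    have h1 := scale β (-1) (by norm_num)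
    have h2 := scale β (√s) (Real.sqrt_pos.2 hs).ne'
    rw [Real.sq_sqrt hs.le] at h2
    simp only [ha, even_two, Even.neg_pow, one_pow, pow_succ, pow_mul, pow_zero, one_mul, mul_neg,
      mul_one, neg_neg, abs_one, neg_mul] at h1
    rw [h2, (by linarith : ∫ y, (B (2 * j) 1).indicator (mono β) y = 0)]; simp

lemma capMono (j : ℕ) (β : Fin (2 * j + 1) → ℕ) : ∃ F, P2 F ∧ (∀ r, F r (-r) = 0) ∧
    ∀ r > 0, ∀ σ ∈ Icc (-r) r,
      ∫ z, (B (2 * j + 1) (r ^ 2) ∩ {z | z 0 ≤ σ}).indicator (mono β) z = F r σ := by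
  obtain ⟨c, N, hJ⟩ := Jlem j fun i => β i.succ
  have hf : P2 fun r u => u ^ β 0 * (c * (r ^ 2 - u ^ 2) ^ N) :=
    S2.mul_mem (S2.pow_mem s2_snd _) (S2.mul_mem (cst S2 c)
      (S2.pow_mem (S2.sub_mem (S2.pow_mem s2_fst 2) (S2.pow_mem s2_snd 2)) N))
  obtain ⟨F, hF, hI⟩ := hf.prim
  refine ⟨fun r σ => F r σ - F r (-r), S2.sub_mem (hF.subst S2 s2_fst s2_snd)
    (hF.subst S2 s2_fst (S2.neg_mem s2_fst)), fun r => sub_self _, fun r hr σ hσ => ?_⟩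
  have hm : MeasurableSet {z : Fin (2 * j + 1) → ℝ | z 0 ≤ σ} :=
    (isClosed_le (continuous_apply 0) continuous_const).measurableSet
  rw [(fub (intg _ hm (mono_cont β))).1]
  show _ = F r σ - F r (-r)
  rw [← hI, intervalIntegral.integral_of_le hσ.1, ← integral_indicator measurableSet_Ioc]
  have hae : ∀ᵐ u : ℝ, u ∉ ({r, -r} : Set ℝ) :=
    (Set.toFinite _).countable.ae_notMem _
  refine integral_congr_ae (hae.mono fun u hu => ?_)
  simp only [mem_insert_iff, mem_singleton_iff, not_or] at hu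
  have hmono : ∀ y : Fin (2 * j) → ℝ, mono β (Fin.cons u y) =
      u ^ β 0 * mono (fun i => β i.succ) y := by
    intro y; simp [mono, Fin.prod_univ_succ]
  by_cases h : u ∈ Ioc (-r) σ
  · have h1 : u < r := lt_of_le_of_ne (h.2.trans hσ.2) hu.1
    have h2 : 0 < r ^ 2 - u ^ 2 := by nlinarith [h.1]
    beta_reduce
    rw [indicator_of_mem h, ← hJ _ h2, ← integral_const_mul]
    refine integral_congr_ae (Eventually.of_forall fun y => ?_)
    have : (Fin.cons u y : Fin (2 * j + 1) → ℝ) ∈ B (2 * j + 1) (r ^ 2) ∩ {z | z 0 ≤ σ} ↔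
        y ∈ B (2 * j) (r ^ 2 - u ^ 2) := by
      show nq _ ≤ _ ∧ u ≤ σ ↔ nq _ ≤ _
      rw [nq_cons]
      exact ⟨fun a => by linarith [a.1], fun a => ⟨by linarith, h.2⟩⟩
    beta_reduce
    by_cases hy : y ∈ B (2 * j) (r ^ 2 - u ^ 2)
    · rw [indicator_of_mem hy, indicator_of_mem (this.2 hy), hmono]
    · rw [indicator_of_notMem hy, indicator_of_notMem (fun h => hy (this.1 h)), mul_zero]
  · beta_reduce
    rw [indicator_of_notMem h]
    refine integral_eq_zero_of_ae (Eventually.of_forall fun y => indicator_of_notMem ?_ _)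
    rintro ⟨a1, a2⟩
    have a1 : nq _ ≤ _ := a1
    rw [nq_cons] at a1
    have a3 := nq_nonneg y
    refine h ⟨lt_of_le_of_ne ?_ (Ne.symm hu.2), a2⟩
    exact neg_le_of_abs_le (abs_le_of_sq_le_sq' (by linarith) hr.le |> abs_le.2)

lemma capAll {n : ℕ} {G : (Fin (n + 1) → ℝ) → ℝ} {F : ℝ → ℝ} {r : ℝ} (hr : 0 < r) (h0 : F (-r) = 0)
    (h : ∀ σ ∈ Icc (-r) r, ∫ z, (B (n + 1) (r ^ 2) ∩ {z | z 0 ≤ σ}).indicator G z = F σ) (σ : ℝ) :
    ∫ z, (B (n + 1) (r ^ 2) ∩ {z | z 0 ≤ σ}).indicator G z =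
      F σ + (if r ≤ σ then F r - F σ else 0) + if r ≤ -σ then -F σ else 0 := by
  have hb : ∀ z ∈ B (n + 1) (r ^ 2), -r ≤ z 0 ∧ z 0 ≤ r :=
    fun z hz => abs_le_of_sq_le_sq' ((sq_le_nq z 0).trans hz) hr.le
  rcases le_or_gt r σ with h1 | h1
  · rw [if_pos h1, if_neg (by linarith), ← h r ⟨by linarith, le_rfl⟩]
    have : B (n + 1) (r ^ 2) ∩ {z | z 0 ≤ σ} = B (n + 1) (r ^ 2) ∩ {z | z 0 ≤ r} := by
      ext z
      exact ⟨fun a => ⟨a.1, (hb z a.1).2⟩, fun a => ⟨a.1, le_trans a.2 h1⟩⟩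
    rw [this]; ring
  · rw [if_neg h1.not_ge]
    rcases lt_trichotomy σ (-r) with h2 | h2 | h2
    · have : B (n + 1) (r ^ 2) ∩ {z | z 0 ≤ σ} = ∅ :=
        eq_empty_of_forall_notMem fun z a => by
          have := (hb z a.1).1
          have a2 : z 0 ≤ σ := a.2
          linarith
      rw [this, if_pos (by linarith)]; simp
    · rw [h σ ⟨h2.ge, h1.le⟩, if_pos (by linarith), h2, h0]; simp
    · rw [h σ ⟨h2.le, h1.le⟩, if_neg (by linarith)]; simp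

noncomputable def refl {n : ℕ} (v : Fin n → ℝ) : (Fin n → ℝ) →ₗ[ℝ] (Fin n → ℝ) where
  toFun z := z - (2 * (v ⬝ᵥ z) * (v ⬝ᵥ v)⁻¹) • v
  map_add' x y := by simp only [dotProduct_add]; module
  map_smul' c x := by simp only [dotProduct_smul, smul_eq_mul, RingHom.id_apply]; module

lemma refl_apply {n : ℕ} (v z : Fin n → ℝ) :
    refl v z = z - (2 * (v ⬝ᵥ z) * (v ⬝ᵥ v)⁻¹) • v := rfl

lemma refl_adj {n : ℕ} (v w z : Fin n → ℝ) : w ⬝ᵥ refl v z = refl v w ⬝ᵥ z := by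
  simp only [refl_apply, dotProduct_sub, sub_dotProduct, dotProduct_smul, smul_dotProduct,
    smul_eq_mul, dotProduct_comm w v]
  ring

lemma refl_refl {n : ℕ} (v z : Fin n → ℝ) : refl v (refl v z) = z := by
  by_cases h : v ⬝ᵥ v = 0
  · simp [refl_apply, h]
  · rw [refl_apply v (refl v z), refl_apply]
    simp only [dotProduct_sub, dotProduct_smul, smul_eq_mul]
    match_scalars
    · rfl
    · field_simp; ring

lemma nq_dot {n : ℕ} (z : Fin n → ℝ) : nq z = z ⬝ᵥ z := by simp [nq, dotProduct, sq]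

lemma nq_refl {n : ℕ} (v z : Fin n → ℝ) : nq (refl v z) = nq z := by
  rw [nq_dot, nq_dot, refl_adj, refl_refl]

lemma refl_int {n : ℕ} (v : Fin n → ℝ) (f : (Fin n → ℝ) → ℝ) : ∫ z, f (refl v z) = ∫ z, f z := by
  have h1 : LinearMap.det (refl v) * LinearMap.det (refl v) = 1 := by
    rw [← LinearMap.det_comp, ← LinearMap.det_id (A := ℝ) (M := Fin n → ℝ)]
    congr 1
    exact LinearMap.ext (refl_refl v)
  have h2 : |LinearMap.det (refl v)| = 1 := by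
    rcases mul_self_eq_one_iff.1 h1 with h | h <;> simp [h]
  have h3 := Measure.map_linearMap_addHaar_eq_smul_addHaar (volume : Measure (Fin n → ℝ))
    (left_ne_zero_of_mul_eq_one h1)
  rw [abs_inv, h2] at h3
  have hc : Measurable (refl v) := (refl v).continuous_of_finiteDimensional.measurable
  let e : (Fin n → ℝ) ≃ᵐ (Fin n → ℝ) := ⟨⟨refl v, refl v, refl_refl v, refl_refl v⟩, hc, hc⟩
  have hm : MeasurePreserving e volume volume := ⟨hc, h3.trans (by simp)⟩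
  exact hm.integral_comp' f

noncomputable def hv {n : ℕ} (l : Fin (n + 1) → ℝ) : Fin (n + 1) → ℝ :=
  l - √(nq l) • Pi.single 0 1

lemma dot_refl {n : ℕ} (l z : Fin (n + 1) → ℝ) : l ⬝ᵥ refl (hv l) z = √(nq l) * z 0 := by
  have h0 := Real.sq_sqrt (nq_nonneg l)
  have h1 : hv l ⬝ᵥ hv l = 2 * (hv l ⬝ᵥ l) := by
    simp only [hv, dotProduct_sub, sub_dotProduct, dotProduct_smul, smul_dotProduct, smul_eq_mul,
      dotProduct_single, single_dotProduct, Pi.single_eq_same, ← nq_dot, Pi.sub_apply,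
      Pi.smul_apply]
    nlinarith
  have h2 : refl (hv l) l = √(nq l) • Pi.single 0 1 := by
    rw [refl_apply, ← h1]
    by_cases h : hv l ⬝ᵥ hv l = 0
    · have : hv l = 0 := dotProduct_self_eq_zero.1 h
      rw [this, smul_zero, sub_zero]
      exact sub_eq_zero.1 this
    · rw [mul_inv_cancel₀ h, one_smul, hv]; abel
  rw [refl_adj, h2]
  simp

lemma rot {n : ℕ} (l : Fin (n + 1) → ℝ) (hl : l ≠ 0) (s t : ℝ) (G : (Fin (n + 1) → ℝ) → ℝ) :
    ∫ z, (B (n + 1) s ∩ {z | l ⬝ᵥ z ≤ t}).indicator G z =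
      ∫ z, (B (n + 1) s ∩ {z | z 0 ≤ t * (√(nq l))⁻¹}).indicator (fun z => G (refl (hv l) z)) z := by
  have hp : 0 < √(nq l) := Real.sqrt_pos.2 (lt_of_le_of_ne (nq_nonneg l) fun h =>
    hl (dotProduct_self_eq_zero.1 (by rw [← nq_dot, ← h])))
  rw [← refl_int (hv l)]
  refine integral_congr_ae (Eventually.of_forall fun z => ?_)
  have : refl (hv l) z ∈ B (n + 1) s ∩ {z | l ⬝ᵥ z ≤ t} ↔
      z ∈ B (n + 1) s ∩ {z | z 0 ≤ t * (√(nq l))⁻¹} := by
    show nq _ ≤ _ ∧ l ⬝ᵥ _ ≤ t ↔ nq _ ≤ _ ∧ z 0 ≤ _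
    rw [nq_refl, dot_refl, ← div_eq_mul_inv, le_div_iff₀ hp, mul_comm]
  beta_reduce
  by_cases hz : z ∈ B (n + 1) s ∩ {z | z 0 ≤ t * (√(nq l))⁻¹}
  · rw [indicator_of_mem hz, indicator_of_mem (this.2 hz)]
  · rw [indicator_of_notMem hz, indicator_of_notMem fun h => hz (this.1 h)]

variable {P : Type} {𝒜 : Subalgebra ℝ (P → ℝ)}

inductive PolP (𝒜 : Subalgebra ℝ (P → ℝ)) (n : ℕ) : (P × (Fin n → ℝ) → ℝ) → Prop
  | mono (g : P → ℝ) (β : Fin n → ℕ) : g ∈ 𝒜 → PolP 𝒜 n fun q => g q.1 * mono β q.2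
  | add {f g : P × (Fin n → ℝ) → ℝ} : PolP 𝒜 n f → PolP 𝒜 n g → PolP 𝒜 n (f + g)

lemma PolP.mul {n : ℕ} {f g : P × (Fin n → ℝ) → ℝ} (hf : PolP 𝒜 n f) (hg : PolP 𝒜 n g) :
    PolP 𝒜 n (f * g) := by
  induction hf with
  | mono a β ha =>
    induction hg with
    | mono b γ hb =>
      convert PolP.mono (a * b) (β + γ) (𝒜.mul_mem ha hb) using 1
      ext q
      simp only [Pool.Agent.H.MP_d4ad8c_gt.mono, Pi.mul_apply, Pi.add_apply, pow_add,
        Finset.prod_mul_distrib]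
      ring
    | add _ _ h1 h2 => rw [mul_add]; exact h1.add h2
  | add _ _ h1 h2 => rw [add_mul]; exact h1.add h2

lemma PolP.const {n : ℕ} {g : P → ℝ} (hg : g ∈ 𝒜) : PolP 𝒜 n fun q => g q.1 := by
  simpa [Pool.Agent.H.MP_d4ad8c_gt.mono] using PolP.mono (n := n) g 0 hg

def Pol (𝒜 : Subalgebra ℝ (P → ℝ)) (n : ℕ) : Subalgebra ℝ (P × (Fin n → ℝ) → ℝ) where
  carrier := {f | PolP 𝒜 n f}
  mul_mem' := PolP.mul
  add_mem' := PolP.add
  algebraMap_mem' := fun c => PolP.const (cst 𝒜 c)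

lemma pol_const {n : ℕ} {g : P → ℝ} (hg : g ∈ 𝒜) : (fun q => g q.1) ∈ Pol 𝒜 n := PolP.const hg

lemma pol_coord {n : ℕ} (i : Fin n) : (fun q => q.2 i) ∈ Pol 𝒜 n := by
  have := PolP.mono (n := n) _ (Pi.single i 1) (cst 𝒜 1)
  show PolP _ _ _
  convert this using 2 with q
  simp only [mono, one_mul]
  rw [Finset.prod_eq_single i (fun j _ hj => by simp [hj]) (by simp)]
  simp

lemma sumf {Q ι : Type} [Fintype ι] (S : Subalgebra ℝ (Q → ℝ)) {f : ι → Q → ℝ}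
    (h : ∀ i, f i ∈ S) : (fun q => ∑ i, f i q) ∈ S := by
  have := S.sum_mem (t := Finset.univ) fun i _ => h i
  rwa [Finset.sum_fn] at this

lemma pol_cont {n : ℕ} {f : P × (Fin n → ℝ) → ℝ} (hf : f ∈ Pol 𝒜 n) (p : P) :
    Continuous fun z => f (p, z) := by
  induction hf with
  | mono a β _ => exact (mono_cont β).const_mul (a p)
  | add _ _ h1 h2 => exact h1.add h2

lemma pol_subst {n : ℕ} {f : P × (Fin n → ℝ) → ℝ} (hf : f ∈ Pol 𝒜 n)
    {H : P → (Fin n → ℝ) → Fin n → ℝ} (hH : ∀ i, (fun q => H q.1 q.2 i) ∈ Pol 𝒜 n) :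
    (fun q => f (q.1, H q.1 q.2)) ∈ Pol 𝒜 n := by
  induction hf with
  | mono a β ha =>
    refine (Pol 𝒜 n).mul_mem (pol_const ha) ?_
    have := (Pol 𝒜 n).prod_mem (t := Finset.univ) fun i _ => (Pol 𝒜 n).pow_mem (hH i) (β i)
    rwa [Finset.prod_fn] at this
  | add _ _ h1 h2 => exact (Pol 𝒜 n).add_mem h1 h2

lemma capInt (hA : Good 𝒜) {j : ℕ} {f : P × (Fin (2 * j + 1) → ℝ) → ℝ} (hf : f ∈ Pol 𝒜 _)
    {σ : P → ℝ} (hσ : σ ∈ 𝒜) {r : ℝ} (hr : 0 < r) :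
    (fun p => ∫ z, (B (2 * j + 1) (r ^ 2) ∩ {z | z 0 ≤ σ p}).indicator (fun z => f (p, z)) z)
      ∈ 𝒜 := by
  induction hf with
  | mono a β ha =>
    obtain ⟨F, hF, h0, h1⟩ := capMono j β
    simp only [indicator_const_mul, integral_const_mul, capAll hr (h0 r) (h1 r hr)]
    have a1 := hF.subst 𝒜 (cst 𝒜 r) hσ
    exact 𝒜.mul_mem ha (𝒜.add_mem (𝒜.add_mem a1 (hA.ite _ (𝒜.sub_mem (cst 𝒜 _) a1) (cst 𝒜 0)))
      (hA.ite _ (𝒜.neg_mem a1) (cst 𝒜 0)))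
  | @add f g hf hg h1 h2 =>
    convert 𝒜.add_mem h1 h2 using 1
    ext p
    have hm : MeasurableSet {z : Fin (2 * j + 1) → ℝ | z 0 ≤ σ p} :=
      (isClosed_le (continuous_apply 0) continuous_const).measurableSet
    rw [Pi.add_apply, ← integral_add (intg _ hm (pol_cont hf p)) (intg _ hm (pol_cont hg p))]
    simp only [Pi.add_apply, indicator_add]

lemma halfInt (hA : Good 𝒜) {j : ℕ} {f : P × (Fin (2 * j + 1) → ℝ) → ℝ} (hf : f ∈ Pol 𝒜 _)
    {l : P → Fin (2 * j + 1) → ℝ} (hl : ∀ i, (fun p => l p i) ∈ 𝒜) (hl0 : ∀ p, l p ≠ 0)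
    {t : P → ℝ} (ht : t ∈ 𝒜) {r : ℝ} (hr : 0 < r) :
    (fun p => ∫ z, (B (2 * j + 1) (r ^ 2) ∩ {z | l p ⬝ᵥ z ≤ t p}).indicator (fun z => f (p, z)) z)
      ∈ 𝒜 := by
  simp only [fun p => rot (l p) (hl0 p)]
  have h1 : (fun p => √(nq (l p))) ∈ 𝒜 := hA.sqrt _ (sumf 𝒜 fun i => 𝒜.pow_mem (hl i) 2)
  have h2 : ∀ i, (fun p => hv (l p) i) ∈ 𝒜 :=
    fun i => 𝒜.sub_mem (hl i) (𝒜.mul_mem h1 (cst 𝒜 _))
  have h3 : (fun p => (hv (l p) ⬝ᵥ hv (l p))⁻¹) ∈ 𝒜 :=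
    hA.inv _ (sumf 𝒜 fun i => 𝒜.mul_mem (h2 i) (h2 i))
  refine capInt hA (pol_subst hf (H := fun p z => refl (hv (l p)) z) fun i => ?_)
    (𝒜.mul_mem ht (hA.inv _ h1)) hr
  exact (Pol 𝒜 _).sub_mem (pol_coord i) ((Pol 𝒜 _).mul_mem ((Pol 𝒜 _).mul_mem
    ((Pol 𝒜 _).mul_mem (cst _ 2) (sumf _ fun k => (Pol 𝒜 _).mul_mem (pol_const (h2 k))
      (pol_coord k))) (pol_const h3)) (pol_const (h2 i)))

end Pool.Agent.H.MP_d4ad8c_gt
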