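import Mathlib
import Pool.Agent.H.MP_d4ad8c_gt.B
set_option autoImplicit false
namespace Pool.Agent.H.MP_d4ad8c_gt
open Set Filter Topology MeasureTheory

lemma ftc {q q' : ℝ → ℝ} (hq : ∀ w, HasDerivAt q (q' w) w) (hc : Continuous q') {a b c : ℝ}
    (hab : a ≤ b) (h : q c = 0 ∨ b ≤ c) :
    ∫ w in a..b, {w | w ≤ c}.indicator q' w =
      (if b ≤ c then q b else 0) - if a ≤ c then q a else 0 := by
  have F : ∀ x y, ∫ w in x..y, q' w = q y - q x := fun x y =>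
    intervalIntegral.integral_eq_sub_of_hasDerivAt (fun w _ => hq w) (hc.intervalIntegrable _ _)
  by_cases h1 : b ≤ c
  · rw [if_pos h1, if_pos (hab.trans h1), ← F]
    refine intervalIntegral.integral_congr fun w hw => indicator_of_mem ?_ _
    rw [uIcc_of_le hab] at hw
    exact hw.2.trans h1
  · have h0 := h.resolve_right h1
    rw [if_neg h1]
    by_cases h2 : a ≤ c
    · rw [intervalIntegral.integral_indicator ⟨h2, (not_le.1 h1).le⟩, F, if_pos h2, h0]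
    · rw [if_neg h2, sub_zero, ← intervalIntegral.integral_zero (a := a) (b := b) (μ := volume)]
      refine intervalIntegral.integral_congr fun w hw => indicator_of_notMem ?_ _
      rw [uIcc_of_le hab] at hw
      exact fun h3 => h2 (hw.1.trans h3)

lemma slice {m : ℕ} (ε : ℝ) (l : Fin m → ℝ) (t : ℝ) (g : (Fin (m + 1) → ℝ) → ℝ) (y : Fin m → ℝ) :
    ∫ w : ℝ, (B (m + 1) (ε ^ 2) ∩ {z | (Fin.cons 1 l : Fin (m + 1) → ℝ) ⬝ᵥ z ≤ t}).indicator g
      (Fin.cons w y) = if nq y ≤ ε ^ 2 then ∫ w in -√(ε ^ 2 - nq y)..√(ε ^ 2 - nq y),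
        {w | w ≤ t - l ⬝ᵥ y}.indicator (fun w => g (Fin.cons w y)) w else 0 := by
  have hmem : ∀ w : ℝ, (Fin.cons w y : Fin (m + 1) → ℝ) ∈ B (m + 1) (ε ^ 2) ∩
      {z | (Fin.cons 1 l : Fin (m + 1) → ℝ) ⬝ᵥ z ≤ t} ↔
        w ^ 2 ≤ ε ^ 2 - nq y ∧ w ≤ t - l ⬝ᵥ y := by
    intro w
    show nq _ ≤ _ ∧ (Fin.cons 1 l : Fin (m + 1) → ℝ) ⬝ᵥ (Fin.cons w y : Fin (m + 1) → ℝ) ≤ _ ↔ _
    rw [nq_cons, le_sub_iff_add_le, le_sub_iff_add_le]
    simp [dotProduct, Fin.sum_univ_succ]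
  split_ifs with h
  · rw [intervalIntegral.integral_of_le (by linarith [Real.sqrt_nonneg (ε ^ 2 - nq y)]),
      ← integral_Icc_eq_integral_Ioc, ← integral_indicator measurableSet_Icc]
    refine integral_congr_ae (Eventually.of_forall fun w => ?_)
    have h2 : w ∈ Icc (-√(ε ^ 2 - nq y)) (√(ε ^ 2 - nq y)) ↔ w ^ 2 ≤ ε ^ 2 - nq y := by
      rw [mem_Icc, ← abs_le, Real.le_sqrt (abs_nonneg _) (by linarith), sq_abs]
    beta_reduce
    by_cases a : w ^ 2 ≤ ε ^ 2 - nq y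
    · rw [indicator_of_mem (h2.2 a)]
      by_cases b : w ≤ t - l ⬝ᵥ y
      · rw [indicator_of_mem ((hmem w).2 ⟨a, b⟩), indicator_of_mem (s := {w | w ≤ t - l ⬝ᵥ y}) b]
      · rw [indicator_of_notMem fun h => b ((hmem w).1 h).2,
          indicator_of_notMem (s := {w | w ≤ t - l ⬝ᵥ y}) b]
    · rw [indicator_of_notMem fun h => a ((hmem w).1 h).1, indicator_of_notMem fun h => a (h2.1 h)]
  · refine integral_eq_zero_of_ae (Eventually.of_forall fun w => indicator_of_notMem ?_ _)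
    intro h'
    have := ((hmem w).1 h').1
    exact h (by nlinarith [sq_nonneg w])

lemma sphere_null {n : ℕ} {r : ℝ} (hr : 0 < r) : ∀ᵐ x : Fin n → ℝ, √(nq x) ≠ r := by
  have h1 := Measure.addHaar_sphere_of_ne_zero (volume : Measure (EuclideanSpace ℝ (Fin n))) 0
    hr.ne'
  have h2 := (PiLp.volume_preserving_toLp (Fin n)).measure_preimage
    (Metric.isClosed_sphere (x := (0 : EuclideanSpace ℝ (Fin n))) (ε := r)).measurableSet.nullMeasurableSet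
  rw [h1] at h2
  rw [ae_iff]
  convert h2 using 2
  ext x
  simp [EuclideanSpace.norm_eq, nq]

lemma shell {n : ℕ} {c : Set (Fin n → ℝ)} (hc : MeasurableSet c) {ρ : ℝ} (h0 : 0 ≤ ρ)
    (h1 : ρ < 1) :
    ∫ x, ({x | (√(nq x) - 1) ^ 2 ≤ ρ ^ 2} ∩ c).indicator (fun _ => (1 : ℝ)) x =
      (∫ x, (B n ((1 + ρ) ^ 2) ∩ c).indicator (fun _ => (1 : ℝ)) x) -
        ∫ x, (B n ((1 + -ρ) ^ 2) ∩ c).indicator (fun _ => (1 : ℝ)) x := by
  rw [← integral_sub (intg _ hc continuous_const) (intg _ hc continuous_const)]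
  refine integral_congr_ae ((sphere_null (r := 1 + -ρ) (by linarith)).mono fun x hx => ?_)
  have e : ∀ r, 0 ≤ r → (x ∈ B n (r ^ 2) ↔ √(nq x) ≤ r) := fun r hr => (Real.sqrt_le_left hr).symm
  have e1 := e (1 + ρ) (by linarith)
  have e2 := e (1 + -ρ) (by linarith)
  have e3 : (√(nq x) - 1) ^ 2 ≤ ρ ^ 2 ↔ -ρ ≤ √(nq x) - 1 ∧ √(nq x) - 1 ≤ ρ := by
    rw [← abs_le, ← sq_le_sq₀ (abs_nonneg _) h0, sq_abs]
  beta_reduce
  by_cases a : x ∈ c
  · rcases lt_or_gt_of_ne hx with b | b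
    · rw [indicator_of_notMem (fun h => by linarith [(e3.1 h.1).1]),
        indicator_of_mem (mem_inter (e1.2 (by linarith)) a),
        indicator_of_mem (mem_inter (e2.2 b.le) a)]; simp
    · rw [indicator_of_notMem (s := B n ((1 + -ρ) ^ 2) ∩ c) (fun h => b.not_ge (e2.1 h.1)),
        sub_zero]
      by_cases d : √(nq x) ≤ 1 + ρ
      · rw [indicator_of_mem (mem_inter (e1.2 d) a), indicator_of_mem
          (mem_inter (show x ∈ {x | (√(nq x) - 1) ^ 2 ≤ ρ ^ 2} from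
            e3.2 ⟨by linarith, by linarith⟩) a)]
      · rw [indicator_of_notMem (fun h => d (by linarith [(e3.1 h.1).2])),
          indicator_of_notMem fun h => d (e1.1 h.1)]
  · simp [a]

lemma hmeas {n : ℕ} (l : Fin n → ℝ) (t : ℝ) : MeasurableSet {z : Fin n → ℝ | l ⬝ᵥ z ≤ t} :=
  (isClosed_le (by unfold dotProduct; fun_prop) continuous_const).measurableSet

lemma capX (j : ℕ) : ∃ F, P2 F ∧ (∀ r, F r (-r) = 0) ∧ ∀ (a : Fin (2 * j + 1) → ℝ), a ≠ 0 →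
    ∀ r > 0, ∀ s σ, σ = s * (√(nq a))⁻¹ →
      ∫ x, (B _ (r ^ 2) ∩ {x | a ⬝ᵥ x ≤ s}).indicator (fun _ => (1 : ℝ)) x =
        F r σ + (if r ≤ σ then F r r - F r σ else 0) + if r ≤ -σ then -F r σ else 0 := by
  obtain ⟨F, hF, h0, h1⟩ := capMono j 0
  refine ⟨F, hF, h0, fun a ha r hr s σ hσ => ?_⟩
  rw [rot a ha, ← capAll hr (h0 r) (h1 r hr), hσ]
  have : mono (0 : Fin (2 * j + 1) → ℕ) = fun _ => (1 : ℝ) := by ext z; simp [mono]
  rw [this]

def T {k m : ℕ} (ε : ℝ) (a : Fin k → ℝ) (b : Fin m → ℝ) (t : ℝ) :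
    Set ((Fin k → ℝ) × (Fin m → ℝ)) :=
  {p | (√(nq p.1) - 1) ^ 2 + nq p.2 ≤ ε ^ 2 ∧ a ⬝ᵥ p.1 + b ⬝ᵥ p.2 ≤ t}

lemma T_int {k m : ℕ} {ε : ℝ} (h0 : 0 < ε) (h1 : ε < 1) (a : Fin k → ℝ) (b : Fin m → ℝ) (t : ℝ) :
    (volume (T ε a b t)).toReal = ∫ y, if nq y ≤ ε ^ 2 then
      ∫ x, ({x | (√(nq x) - 1) ^ 2 ≤ √(ε ^ 2 - nq y) ^ 2} ∩
        {x | a ⬝ᵥ x ≤ t - b ⬝ᵥ y}).indicator (fun _ => (1 : ℝ)) x else 0 := by
  have c1 := nq_cont (n := k)
  have c2 := nq_cont (n := m)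
  have hcl : IsClosed (T ε a b t) :=
    (isClosed_le (f := fun p : (Fin k → ℝ) × (Fin m → ℝ) => (√(nq p.1) - 1) ^ 2 + nq p.2)
      (by fun_prop) (continuous_const (y := ε ^ 2))).inter
      (isClosed_le (f := fun p : (Fin k → ℝ) × (Fin m → ℝ) => a ⬝ᵥ p.1 + b ⬝ᵥ p.2)
        (by unfold dotProduct; fun_prop) (continuous_const (y := t)))
  have hcp : IsCompact (T ε a b t) := by
    refine ((B_compact k (2 ^ 2)).prod (B_compact m (ε ^ 2))).of_isClosed_subset hcl ?_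
    rintro p ⟨hp, -⟩
    refine ⟨(Real.sqrt_le_left (by norm_num)).1 ?_, ?_⟩
    · nlinarith [nq_nonneg p.2]
    · show nq _ ≤ _
      nlinarith [sq_nonneg (√(nq p.1) - 1)]
  have hi : Integrable ((T ε a b t).indicator fun _ => (1 : ℝ)) (volume.prod volume) :=
    (integrable_indicator_iff hcl.measurableSet).2
      (continuous_const.continuousOn.integrableOn_compact hcp)
  have := integral_prod_symm _ hi
  rw [integral_indicator hcl.measurableSet, setIntegral_const, smul_eq_mul, mul_one] at this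
  refine this.trans (integral_congr_ae (Eventually.of_forall fun y => ?_))
  beta_reduce
  split_ifs with h
  · refine integral_congr_ae (Eventually.of_forall fun x => ?_)
    rw [Real.sq_sqrt (by linarith)]
    simp only [indicator, T, mem_inter_iff, mem_ofPred_eq, le_sub_iff_add_le]
  · refine integral_eq_zero_of_ae (Eventually.of_forall fun x => indicator_of_notMem ?_ _)
    rintro ⟨hp, -⟩
    exact h (by nlinarith [sq_nonneg (√(nq x) - 1)])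

lemma core {P : Type} {𝒜 : Subalgebra ℝ (P → ℝ)} (hA : Good 𝒜) (j i : ℕ) {ε : ℝ} (h0 : 0 < ε)
    (h1 : ε < 1) {a : P → Fin (2 * j + 1) → ℝ} {b : P → Fin (2 * i) → ℝ} {t : P → ℝ}
    (ha : ∀ s, (fun p => a p s) ∈ 𝒜) (hb : ∀ s, (fun p => b p s) ∈ 𝒜) (ht : t ∈ 𝒜) :
    ∃ W ∈ 𝒜, ∀ p, a p ≠ 0 → (volume (T ε (a p) (b p) (t p))).toReal = W p := by
  obtain ⟨F, hF, hF0, hX⟩ := capX j
  obtain ⟨F', hF', dF⟩ := hF.deriv
  have hG : P2 fun r s => F r r - F r s :=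
    S2.sub_mem (hF.subst S2 s2_fst s2_fst) (hF.subst S2 s2_fst s2_snd)
  obtain ⟨G', hG', dG⟩ := hG.deriv
  obtain ⟨ι, hι⟩ : ∃ ι : P → ℝ, ι = fun p => (√(nq (a p)))⁻¹ := ⟨_, rfl⟩
  have hιA : ι ∈ 𝒜 := hι ▸ hA.inv _ (hA.sqrt _ (sumf 𝒜 fun s => 𝒜.pow_mem (ha s) 2))
  let σ : P × (Fin (2 * i + 1) → ℝ) → ℝ := fun q => (t q.1 - ∑ s, b q.1 s * q.2 s.succ) * ι q.1
  have hσ : σ ∈ Pol 𝒜 _ := (Pol 𝒜 _).mul_mem ((Pol 𝒜 _).sub_mem (pol_const ht)
    (sumf _ fun s => (Pol 𝒜 _).mul_mem (pol_const (hb s)) (pol_coord _))) (pol_const hιA)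
  have hr : (fun q : P × (Fin (2 * i + 1) → ℝ) => 1 + q.2 0) ∈ Pol 𝒜 _ :=
    (Pol 𝒜 _).add_mem (cst _ 1) (pol_coord 0)
  have f1 := hF'.subst _ hr hσ
  have f2 := hG'.subst _ hr hσ
  have f3 : (fun q => -F' (1 + q.2 0) (σ q)) ∈ Pol 𝒜 _ := (Pol 𝒜 _).neg_mem f1
  have hc : ∀ {l : P → Fin (2 * i) → ℝ}, (∀ s, (fun p => l p s) ∈ 𝒜) →
      ∀ s, (fun p => (Fin.cons 1 (l p) : Fin (2 * i + 1) → ℝ) s) ∈ 𝒜 := by
    intro l hl s
    refine Fin.cases ?_ (fun s => ?_) s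
    · exact cst 𝒜 1
    · exact hl s
  have hn : ∀ l : Fin (2 * i) → ℝ, (Fin.cons 1 l : Fin (2 * i + 1) → ℝ) ≠ 0 :=
    fun l h => one_ne_zero (congrFun h 0)
  have t1 := halfInt hA f1 (hc (l := fun _ => 0) fun _ => cst 𝒜 0) (fun _ => hn _) (cst 𝒜 ε) h0
  have t2 := halfInt hA f2 (hc (l := fun p => ι p • b p) fun s => 𝒜.mul_mem hιA (hb s))
    (fun _ => hn _) (t := fun p => t p * ι p - 1) (𝒜.sub_mem (𝒜.mul_mem ht hιA) (cst 𝒜 1)) h0
  have t3 := halfInt hA f3 (hc (l := fun p => -(ι p • b p))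
    fun s => 𝒜.neg_mem (𝒜.mul_mem hιA (hb s)))
    (fun _ => hn _) (t := fun p => -(t p * ι p) - 1)
    (𝒜.sub_mem (𝒜.neg_mem (𝒜.mul_mem ht hιA)) (cst 𝒜 1)) h0
  refine ⟨_, 𝒜.add_mem (𝒜.add_mem t1 t2) t3, fun p hp => ?_⟩
  obtain ⟨-, a1, b1⟩ := fub (intg (ε ^ 2) (hmeas (Fin.cons 1 0) ε) (pol_cont f1 p))
  obtain ⟨-, a2, b2⟩ := fub (intg (ε ^ 2) (hmeas (Fin.cons 1 (ι p • b p)) (t p * ι p - 1))
    (pol_cont f2 p))
  obtain ⟨-, a3, b3⟩ := fub (intg (ε ^ 2) (hmeas (Fin.cons 1 (-(ι p • b p))) (-(t p * ι p) - 1))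
    (pol_cont f3 p))
  simp only [Pi.add_apply]
  rw [a1, a2, a3, ← integral_add b1 b2, ← integral_add (b1.fun_add b2) b3, T_int h0 h1]
  refine integral_congr_ae (Eventually.of_forall fun y => ?_)
  simp only [slice]
  split_ifs with hy
  swap
  · simp
  obtain ⟨ρ, hρ⟩ : ∃ ρ, ρ = √(ε ^ 2 - nq y) := ⟨_, rfl⟩
  rw [← hρ]
  have r0 : 0 ≤ ρ := hρ ▸ Real.sqrt_nonneg _
  have r1 : ρ ≤ ε := hρ ▸ (Real.sqrt_le_left h0.le).2 (by linarith [nq_nonneg y])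
  obtain ⟨s, hs⟩ : ∃ s, s = (t p - b p ⬝ᵥ y) * ι p := ⟨_, rfl⟩
  have hs' : ∀ w, σ (p, Fin.cons w y) = s := fun w => by simp [σ, hs, dotProduct]
  have hs2 : s = (t p - b p ⬝ᵥ y) * (√(nq (a p)))⁻¹ := by rw [hs, hι]
  rw [shell (hmeas _ _) r0 (by linarith), hX _ hp _ (by linarith) _ s hs2,
    hX _ hp _ (by linarith) _ s hs2]
  simp only [hs', Fin.cons_zero]
  have d1 : ∀ w, HasDerivAt (fun w => F (1 + w) s) (F' (1 + w) s) w :=
    fun w => (dF (1 + w) s).comp_const_add 1 w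
  have d2 : ∀ w, HasDerivAt (fun w => F (1 + w) (1 + w) - F (1 + w) s) (G' (1 + w) s) w :=
    fun w => (dG (1 + w) s).comp_const_add 1 w
  have c1 : Continuous fun w => F' (1 + w) s :=
    hF'.cont.comp (f := fun w : ℝ => (1 + w, s)) (by fun_prop)
  have c2 : Continuous fun w => G' (1 + w) s :=
    hG'.cont.comp (f := fun w : ℝ => (1 + w, s)) (by fun_prop)
  have e2 : t p * ι p - 1 - (ι p • b p) ⬝ᵥ y = s - 1 := by
    rw [hs, smul_dotProduct, smul_eq_mul]; ring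
  have e3 : -(t p * ι p) - 1 - (-(ι p • b p)) ⬝ᵥ y = -s - 1 := by
    rw [hs, neg_dotProduct, smul_dotProduct, smul_eq_mul]; ring
  rw [e2, e3, zero_dotProduct, sub_zero, ftc d1 c1 (by linarith) (Or.inr r1),
    ftc d2 c2 (by linarith) (Or.inl (by simp)),
    ftc (fun w => (d1 w).neg) c1.neg (by linarith) (Or.inl (by simpa using hF0 (-s))),
    if_pos r1, if_pos (show -ρ ≤ ε by linarith)]
  simp only [le_sub_iff_add_le', Pi.neg_apply]
  ring

theorem main (k m : ℕ) (hk : Odd k) (hm : Even m) (ε : ℝ) (h0 : 0 < ε) (h1 : ε < 1) :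
    ∃ F : MvPolynomial ((Fin k ⊕ Fin m) ⊕ Fin 2) ℝ, F ≠ 0 ∧
      ∀ (a : Fin k → ℝ) (b : Fin m → ℝ) (t : ℝ), MvPolynomial.eval
        (Sum.elim (Sum.elim a b) ![t, (volume (T ε a b t)).toReal]) F = 0 := by
  obtain ⟨j, rfl⟩ := hk
  obtain ⟨i, rfl⟩ := even_iff_exists_two_mul.1 hm
  let σ := Option (Fin (2 * j + 1) ⊕ Fin (2 * i))
  have hx : ∀ s : σ, (fun p : σ → ℝ => p s) ∈ Alg σ := fun s => by
    simpa using alg_poly (MvPolynomial.X s : MvPolynomial σ ℝ)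
  obtain ⟨W, hW, hV⟩ := core (alg_good σ) j i h0 h1 (a := fun p s => p (some (Sum.inl s)))
    (b := fun p s => p (some (Sum.inr s))) (t := fun p => p none) (fun _ => hx _) (fun _ => hx _)
    (hx _)
  let r : MvPolynomial σ ℝ := ∑ s, MvPolynomial.X (some (Sum.inl s)) ^ 2
  have hr : ∀ p, MvPolynomial.eval p r = nq fun s => p (some (Sum.inl s)) := by
    intro p; simp [r, nq]
  have hr0 : r ≠ 0 := by
    intro h
    have := hr fun _ => 1
    rw [h] at this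
    simp [nq] at this
    norm_cast at this
  have hVA : (fun p : σ → ℝ => (volume (T ε (fun s => p (some (Sum.inl s)))
      (fun s => p (some (Sum.inr s))) (p none))).toReal) ∈ Alg σ := by
    refine alg_of_mul hr0 ?_
    convert (Alg σ).mul_mem (alg_poly r) hW using 1
    ext p
    by_cases hp : (fun s => p (some (Sum.inl s))) = 0
    · simp only [Pi.mul_apply, hr, hp]; simp [nq]
    · simp only [Pi.mul_apply, hV p hp]
  obtain ⟨F, hF, hE⟩ := alg_out hVA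
  let e : Option σ → (Fin (2 * j + 1) ⊕ Fin (2 * i)) ⊕ Fin 2 := fun x =>
    Option.elim x (Sum.inr 1) fun x => Option.elim x (Sum.inr 0) Sum.inl
  have he : Function.Injective e := by
    rintro (_ | _ | x) (_ | _ | y) h <;> simp [e] at h ⊢
    exact congrArg some h
  refine ⟨MvPolynomial.rename e F, fun h => hF (MvPolynomial.rename_injective e he
    (by simpa using h)), fun a b t => ?_⟩
  rw [MvPolynomial.eval_rename, ← hE fun x => Option.elim x t (Sum.elim a b)]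
  congr 2
  ext x
  rcases x with _ | _ | x <;> rfl

end Pool.Agent.H.MP_d4ad8c_gt
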